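import Pool.Agent.H.MP_fc7d68_al.Comp3

/-!
Linearity of the resolution of a module concentrated in degrees 0 and 1 over a Koszul algebra is
undecidable, already over one fixed Koszul algebra, and over every field.
-/

namespace Pool.Agent.Results.MP_fc7d68_al.NoLinearityAlgorithm

open Pool.Agent.H.MP_fc7d68_al

universe u

/-- There is a fixed (code of a) Koszul algebra `R`, defined by integer equations, such that over
every field `K` no partial recursive function answers `true` exactly on those (codes of) modules
`M` generated in degree `0` with `M_1 ≠ 0` and `M_i = 0` for `i > 1` that have a linear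
resolution over `R`, that is, `reg_R(M) = 0`. -/
theorem result : ∃ c : RingCode, ∀ (K : Type u) [Field K],
    ¬ ∃ f : ModCode →. Bool, Partrec f ∧
      ∀ d : ModCode, Admissible K c d → (true ∈ f d ↔ RegZero K c d) := by
  obtain ⟨c, F, hF, h⟩ := exists_reduction.{u}
  refine ⟨c, fun K _ => ?_⟩
  rintro ⟨f, hf, hd⟩
  apply ComputablePred.halting_problem_not_re 0
  have h1 : Partrec fun p : Nat.Partrec.Code => f (F p) := hf.comp hF
  have h2 : Partrec fun p : Nat.Partrec.Code =>
      (f (F p)).bind fun b => (if b = true then Part.some () else Part.none : Part Unit) := by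
    refine h1.bind ?_
    refine Partrec.of_eq (f := fun q : Nat.Partrec.Code × Bool =>
      cond q.2 (Part.some ()) Part.none) ?_ ?_
    · exact Partrec.cond Computable.snd (Computable.const ()).partrec Partrec.none
    · rintro ⟨p, b⟩
      cases b <;> simp
  refine (h2.dom_re).of_eq fun p => ?_
  rw [← (h K p).2, ← hd (F p) (h K p).1]
  constructor
  · intro h3
    rw [Part.bind_dom] at h3
    obtain ⟨h3, h4⟩ := h3
    refine ⟨h3, ?_⟩
    by_contra h5
    rw [if_neg h5] at h4
    exact h4
  · rintro ⟨h3, h4⟩
    rw [Part.bind_dom]
    refine ⟨h3, ?_⟩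
    rw [if_pos h4]
    trivial

end Pool.Agent.Results.MP_fc7d68_al.NoLinearityAlgorithm
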